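import Pool.Agent.H72.UV.Targets
import Pool.Agent.H72.UV.Basic

/-!
# Module TK of the UV project: choice of `K`, finite determination
-/

set_option autoImplicit false

open Set Filter Topology

namespace Pool.Agent.H10.UV

open Pool.Agent.H72.UV hiding eventually_map

variable {M C A ι κ ν : Type}

/-- lists use only few coordinates -/
lemma list_reindex (l : List (A ⊕ ι)) :
    ∃ (a : ℕ) (_ : a ≤ l.length) (ρ : Fin a → ι) (_ : Function.Injective ρ)
      (l' : List (A ⊕ Fin a)), l = l'.map (Sum.map id ρ) := by
  induction l with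
  | nil => exact ⟨0, le_refl _, Fin.elim0, fun i => i.elim0, [], rfl⟩
  | cons x l ih =>
    obtain ⟨a, ha, ρ, hρ, l', rfl⟩ := ih
    rcases x with y | i
    · exact ⟨a, by simp only [List.length_cons]; omega, ρ, hρ, Sum.inl y :: l', rfl⟩
    · by_cases hi : i ∈ range ρ
      · obtain ⟨j, rfl⟩ := hi
        exact ⟨a, by simp only [List.length_cons]; omega, ρ, hρ, Sum.inr j :: l', rfl⟩
      · refine ⟨a + 1, by simp only [List.length_cons]; omega, Fin.cons i ρ, ?_,
          Sum.inr 0 :: l'.map (Sum.map id Fin.succ), ?_⟩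
        · rw [Fin.cons_injective_iff]
          exact ⟨hi, hρ⟩
        · simp only [List.map_cons, List.map_map, Sum.map_inr, Fin.cons_zero, List.cons.injEq,
            true_and]
          congr 1
          funext x
          rcases x with y | j
          · rfl
          · simp

/-- the limit value -/
noncomputable def lv (c : Str M C) (hc : (range c).Finite) (U : Ultrafilter (ι → M))
    (l : List (M ⊕ ι)) : C :=
  (exists_ae U (fun u => c (l.map (Sum.elim id u)))
    (hc.subset (by rintro _ ⟨u, rfl⟩; exact mem_range_self _))).choose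

lemma lv_spec (c : Str M C) (hc : (range c).Finite) (U : Ultrafilter (ι → M))
    (l : List (M ⊕ ι)) : ∀ᶠ u in (U : Filter (ι → M)), c (l.map (Sum.elim id u)) = lv c hc U l :=
  (exists_ae U (fun u => c (l.map (Sum.elim id u)))
    (hc.subset (by rintro _ ⟨u, rfl⟩; exact mem_range_self _))).choose_spec.2

lemma leq_iff (c : Str M C) (hc : (range c).Finite) (K : Set M) (U V : Ultrafilter (ι → M)) :
    LEq c K U V ↔ ∀ l : List (M ⊕ ι), (∀ y, Sum.inl y ∈ l → y ∈ K) →
      lv c hc U l = lv c hc V l := by
  constructor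
  · intro h l hl
    have h1 := h l hl
    obtain ⟨u, hu, hu2⟩ := (h1.and (lv_spec c hc U l)).exists
    obtain ⟨v, hv, hv2⟩ := (hu.and (lv_spec c hc V l)).exists
    rw [← hu2, ← hv2, hv]
  · intro h l hl
    filter_upwards [lv_spec c hc U l] with u hu
    filter_upwards [lv_spec c hc V l] with v hv
    rw [hu, hv, h l hl]

lemma lv_map (c : Str M C) (hc : (range c).Finite) (U : Ultrafilter (ι → M)) (ρ : κ → ι)
    (l : List (M ⊕ κ)) :
    lv c hc (U.map fun u => u ∘ ρ) l = lv c hc U (l.map (Sum.map id ρ)) := by
  have h1 := lv_spec c hc (U.map fun u => u ∘ ρ) l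
  rw [Pool.Agent.H72.UV.eventually_map] at h1
  have h2 := lv_spec c hc U (l.map (Sum.map id ρ))
  obtain ⟨u, hu, hu2⟩ := (h1.and h2).exists
  rw [← hu, ← hu2, List.map_map]
  congr 2
  funext x
  rcases x with y | j <;> rfl

lemma lv_long (c : Str M C) (hc : (range c).Finite) {m : ℕ} {v : C}
    (hv : ∀ l : List M, m < l.length → c l = v) (U : Ultrafilter (ι → M)) (l : List (M ⊕ ι))
    (hl : m < l.length) : lv c hc U l = v := by
  obtain ⟨u, hu⟩ := (lv_spec c hc U l).exists
  rw [← hu, hv _ (by simpa using hl)]

/-- the set of all limit types -/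
def lims (c : Str M C) (hc : (range c).Finite) (ι : Type) : Set (List (M ⊕ ι) → C) :=
  (fun U => lv c hc U) '' {U : Ultrafilter (ι → M) | Free U}

lemma lims_finite (c : Str M C) (hc : (range c).Finite) (h : FinLim c) [Finite ι] :
    (lims c hc ι).Finite := by
  by_contra hinf
  have hinf' : (lims c hc ι).Infinite := hinf
  apply h ι inferInstance
  have e := hinf'.natEmbedding
  have h1 : ∀ n, ∃ U : Ultrafilter (ι → M), Free U ∧ lv c hc U = (e n : List (M ⊕ ι) → C) := by
    intro n
    obtain ⟨U, hU, hU2⟩ := (e n).2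
    exact ⟨U, hU, hU2⟩
  choose U hU hU2 using h1
  refine ⟨U, hU, fun i j hij hL => hij ?_⟩
  rw [leq_iff c hc] at hL
  apply e.injective
  apply Subtype.ext
  rw [← hU2, ← hU2]
  funext l
  exact hL l fun _ _ => mem_univ _

open Classical in
/-- a list which distinguishes `s` and `s'` -/
noncomputable def dl {X : Type} (s s' : List X → C) : List X :=
  if h : ∃ l, s l ≠ s' l then h.choose else []

lemma dl_spec {X : Type} {s s' : List X → C} (h : s ≠ s') : s (dl s s') ≠ s' (dl s s') := by
  have h2 : ∃ l, s l ≠ s' l := by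
    by_contra h3
    push Not at h3
    exact h (funext h3)
  rw [dl, dif_pos h2]
  exact h2.choose_spec

/-- the set `K` -/
def KK (c : Str M C) (hc : (range c).Finite) (m : ℕ) : Set M :=
  ⋃ a ∈ Iic m, ⋃ s ∈ lims c hc (Fin a), ⋃ s' ∈ lims c hc (Fin a), {y | Sum.inl y ∈ dl s s'}

lemma KK_finite (c : Str M C) (hc : (range c).Finite) (h : FinLim c) (m : ℕ) :
    (KK c hc m).Finite := by
  refine (finite_Iic m).biUnion fun a _ => ?_
  refine (lims_finite c hc h).biUnion fun s _ => ?_
  refine (lims_finite c hc h).biUnion fun s' _ => ?_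
  have : {y | Sum.inl y ∈ dl s s'} = (Sum.inl : M → M ⊕ Fin a) ⁻¹' {x | x ∈ dl s s'} := rfl
  rw [this]
  exact (List.finite_toSet _).preimage Sum.inl_injective.injOn

lemma KK_spec (c : Str M C) (hc : (range c).Finite) (m : ℕ) {a : ℕ} (ha : a ≤ m)
    {s s' : List (M ⊕ Fin a) → C} (hs : s ∈ lims c hc (Fin a)) (hs' : s' ∈ lims c hc (Fin a))
    (h : ∀ l : List (M ⊕ Fin a), (∀ y, Sum.inl y ∈ l → y ∈ KK c hc m) → s l = s' l) : s = s' := by
  by_contra hne
  refine dl_spec hne (h _ fun y hy => ?_)
  exact mem_biUnion (show a ∈ Iic m from ha) (mem_biUnion hs (mem_biUnion hs' hy))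

theorem TK : T_TK := by
  intro M C c m hc hv _ hF
  obtain ⟨v, hv⟩ := hv
  refine ⟨KK c hc m, hc, ⟨v, hv⟩, ‹_›, KK_finite c hc hF m, ?_, ?_⟩
  · intro ι hι U V hU hV hL
    rw [leq_iff c hc] at hL ⊢
    intro l _
    by_cases hl : m < l.length
    · rw [lv_long c hc hv U l hl, lv_long c hc hv V l hl]
    · obtain ⟨a, ha, ρ, hρ, l', rfl⟩ := list_reindex l
      rw [← lv_map, ← lv_map]
      refine congrFun (KK_spec c hc m (a := a) (by omega) ⟨_, hU.comp hρ, rfl⟩
        ⟨_, hV.comp hρ, rfl⟩ fun l2 hl2 => ?_) l'
      change lv c hc (U.map fun u => u ∘ ρ) l2 = lv c hc (V.map fun u => u ∘ ρ) l2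
      rw [lv_map, lv_map]
      apply hL
      intro y hy
      apply hl2
      obtain ⟨x, hx, hx2⟩ := List.mem_map.1 hy
      rcases x with y' | j
      · simp only [Sum.map_inl, id_eq, Sum.inl.injEq] at hx2
        rw [← hx2]
        exact hx
      · simp at hx2
  · intro ν hν
    have hrep : ∀ (a : ℕ) (s : lims c hc (Fin a)), ∃ W : Ultrafilter (Fin a → M), Free W ∧
        lv c hc W = (s : List (M ⊕ Fin a) → C) := by
      rintro a ⟨s, W, hW, hW2⟩
      exact ⟨W, hW, hW2⟩
    choose W hW hW2 using hrep
    have hfinl : ∀ a : ℕ, Finite (lims c hc (Fin a)) := fun a => (lims_finite c hc hF).to_subtype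
    have hKf : Finite (KK c hc m) := (KK_finite c hc hF m).to_subtype
    have hll : ∀ a : ℕ, Finite {l : List (KK c hc m ⊕ (ν ⊕ Fin a)) // l.length ≤ m} := by
      intro a
      exact (List.finite_length_le _ m).to_subtype
    refine ⟨Σ a : Fin (m + 1), (lims c hc (Fin a)) ×
      {l : List (KK c hc m ⊕ (ν ⊕ Fin a)) // l.length ≤ m}, inferInstance, fun t => Fin t.1,
      fun t => inferInstance, fun t => W t.1 t.2.1,
      fun t => t.2.2.1.map (Sum.map Subtype.val id), fun t => hW _ _, ?_, ?_⟩
    · intro t y hy
      obtain ⟨x, hx, hx2⟩ := List.mem_map.1 hy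
      rcases x with y' | j
      · simp only [Sum.map_inl, Sum.inl.injEq] at hx2
        rw [← hx2]
        exact y'.2
      · simp at hx2
    · intro x x' hxx ι hι U hU l hlK _
      by_cases hl : m < l.length
      · refine Eventually.of_forall fun u => ?_
        rw [hv _ (by simpa using hl), hv _ (by simpa using hl)]
      · -- reassociate
        obtain ⟨a, ha, ρ, hρ, l1, hl1⟩ := list_reindex (l.map (Equiv.sumAssoc M ν ι).symm)
        have hl' : l = (l1.map (Equiv.sumAssoc M ν (Fin a))).map (Sum.map id (Sum.map id ρ)) := by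
          have h1 : l = (l.map (Equiv.sumAssoc M ν ι).symm).map (Equiv.sumAssoc M ν ι) := by
            rw [List.map_map]
            conv_lhs => rw [← List.map_id l]
            congr 1
            funext z
            simp
          rw [h1, hl1, List.map_map, List.map_map]
          congr 1
          funext z
          rcases z with (z | z) | z <;> rfl
        set l2 := l1.map (Equiv.sumAssoc M ν (Fin a)) with hl2
        have hl2K : ∀ y, Sum.inl y ∈ l2 → y ∈ KK c hc m := by
          intro y hy
          apply hlK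
          rw [hl']
          exact List.mem_map.2 ⟨_, hy, rfl⟩
        have hlen : l2.length ≤ m := by
          have : l.length = l2.length := by rw [hl', List.length_map]
          omega
        have ham : a < m + 1 := by
          rw [List.length_map] at ha
          omega
        clear_value l2
        clear hl2
        -- a list over `K`
        have hl3 : ∃ l3 : List (KK c hc m ⊕ (ν ⊕ Fin a)), l3.map (Sum.map Subtype.val id) = l2 := by
          clear hl' hlen
          induction l2 with
          | nil => exact ⟨[], rfl⟩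
          | cons z l2 ih =>
            obtain ⟨l3, hl3⟩ := ih fun y hy => hl2K y (List.mem_cons_of_mem _ hy)
            rcases z with z | z
            · exact ⟨Sum.inl ⟨z, hl2K z (List.mem_cons_self)⟩ :: l3, by simp [hl3]⟩
            · exact ⟨Sum.inr z :: l3, by simp [hl3]⟩
        obtain ⟨l3, hl3⟩ := hl3
        have hs : lv c hc (U.map fun u => u ∘ ρ) ∈ lims c hc (Fin a) := ⟨_, hU.comp hρ, rfl⟩
        have key := hxx ⟨⟨a, ham⟩, ⟨_, hs⟩, ⟨l3, by
          rw [← hl3, List.length_map] at hlen
          exact hlen⟩⟩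
        simp only at key
        rw [hl3] at key
        -- substitute
        have hsub : ∀ (x : ν → M) (w : Fin a → M), c (l2.map (Sum.elim id (Sum.elim x w))) =
            c ((l2.map (Sum.elim Sum.inl (Sum.elim (fun j => Sum.inl (x j)) Sum.inr))).map
              (Sum.elim id w)) := by
          intro x w
          rw [List.map_map]
          congr 2
          funext z
          rcases z with z | z | z <;> rfl
        have h1 : ∀ x : ν → M, ∀ᶠ w in (W a ⟨_, hs⟩ : Filter (Fin a → M)),
            c (l2.map (Sum.elim id (Sum.elim x w))) = lv c hc (U.map fun u => u ∘ ρ)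
              (l2.map (Sum.elim Sum.inl (Sum.elim (fun j => Sum.inl (x j)) Sum.inr))) := by
          intro x
          have := lv_spec c hc (W a ⟨_, hs⟩)
            (l2.map (Sum.elim Sum.inl (Sum.elim (fun j => Sum.inl (x j)) Sum.inr)))
          rw [hW2] at this
          filter_upwards [this] with w hw
          rw [hsub, hw]
        have h2 : lv c hc (U.map fun u => u ∘ ρ)
              (l2.map (Sum.elim Sum.inl (Sum.elim (fun j => Sum.inl (x j)) Sum.inr))) =
            lv c hc (U.map fun u => u ∘ ρ)
              (l2.map (Sum.elim Sum.inl (Sum.elim (fun j => Sum.inl (x' j)) Sum.inr))) := by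
          obtain ⟨w, ⟨hw1, hw2⟩, hw3⟩ := ((key.and (h1 x)).and (h1 x')).exists
          rw [← hw2, ← hw3, hw1]
        have h3 : ∀ x : ν → M, ∀ᶠ u in (U : Filter (ι → M)),
            c (l.map (Sum.elim id (Sum.elim x u))) = lv c hc (U.map fun u => u ∘ ρ)
              (l2.map (Sum.elim Sum.inl (Sum.elim (fun j => Sum.inl (x j)) Sum.inr))) := by
          intro x
          have := lv_spec c hc (U.map fun u => u ∘ ρ)
            (l2.map (Sum.elim Sum.inl (Sum.elim (fun j => Sum.inl (x j)) Sum.inr)))
          rw [Pool.Agent.H72.UV.eventually_map] at this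
          filter_upwards [this] with u hu
          rw [← hu, ← hsub, hl', List.map_map]
          congr 2
          funext z
          rcases z with z | z | z <;> rfl
        filter_upwards [h3 x, h3 x'] with u hu hu'
        rw [hu, hu', h2]

end Pool.Agent.H10.UV
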